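import Pool.Agent.H53.HR.Targets

/-!
# Module FAM of hr_modules (MP_f2da09_co): distinct rows from a family of connected sets
-/

namespace Pool.Agent.H17.HR

open Finset Pool.Agent.H53.HR

theorem fam (h1 : LQA) (h2 : ROW) : FAM := by
  intro V _ G H D R hne hD hconn hdis hli hanti
  classical
  set W : Finset V := Finset.univ.biUnion R with hW
  have hRW : ∀ i, R i ⊆ W := fun i => Finset.subset_biUnion_of_mem R (mem_univ i)
  have key : ∀ i ≤ D, ∃ (G' : SimpleGraph V) (a : Fin D → V), LQ W G G' ∧
      (∀ j : Fin D, i ≤ j.val → ∀ r ∈ R j, ∀ y, (G'.Adj r y ↔ G.Adj r y)) ∧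
      (∀ j l, j ≠ l → Anti G' (R j) (R l)) ∧
      (∀ j : Fin D, j.val < i → a j ∈ R j) ∧
      (∀ j l : Fin D, j.val < i → l.val < i → j ≠ l → nb G' H (a j) ≠ nb G' H (a l)) := by
    intro i
    induction i with
    | zero =>
      intro _
      obtain ⟨f, hf⟩ : ∃ f : Fin D → V, ∀ j, f j ∈ R j :=
        ⟨fun j => (hconn j).1.choose, fun j => (hconn j).1.choose_spec⟩
      exact ⟨G, f, LQ.refl, fun _ _ _ _ _ => Iff.rfl, fun j l h => (hanti j l h).1,
        fun j _ => hf j, fun j l hj => absurd hj (by omega)⟩
    | succ i ih =>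
      intro hi
      obtain ⟨G1, a, hq, hadj, hant, ha, hd⟩ := ih (by omega)
      obtain ⟨k, hk⟩ : ∃ k : Fin D, k.val = i := ⟨⟨i, hi⟩, rfl⟩
      have hadjk := hadj k (by omega)
      have hnb : ∀ v, nb G1 (R k) v = nb G (R k) v := by
        intro v
        funext y
        unfold nb
        by_cases hy : y ∈ R k
        · have h3 : G1.Adj v y ↔ G.Adj v y := by
            rw [G1.adj_comm, G.adj_comm]
            exact hadjk y hy v
          simp only [hy, true_and, h3]
        · simp only [hy, false_and]
      have hc1 : Conn G1 (R k) := by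
        refine ⟨(hconn k).1, fun S hS hSn hSk => ?_⟩
        obtain ⟨x, hx, y, hy, hyS, hxy⟩ := (hconn k).2 S hS hSn hSk
        exact ⟨x, hx, y, hy, hyS, (hadjk x (hS hx) y).mpr hxy⟩
      have hl1 : LinearIndepOn (ZMod 2) (nb G1 (R k)) (H : Set V) := by
        have h3 : nb G1 (R k) = nb G (R k) := funext hnb
        rw [h3]
        exact hli k
      set B : Finset (V → ZMod 2) :=
        (Finset.univ.filter (fun j : Fin D => j.val < i)).image (fun j => nb G1 H (a j)) with hB
      have hBc : #B ≤ i := by
        refine card_image_le.trans ?_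
        have h4 : #(Finset.univ.filter (fun j : Fin D => j.val < i)) ≤ #(Finset.range i) := by
          refine Finset.card_le_card_of_injOn (fun j => j.val) ?_ ?_
          · intro j hj
            simpa using hj
          · intro x _ y _ hxy
            exact Fin.ext hxy
        simpa using h4
      obtain ⟨c, hc, G2, hq2, hnB⟩ := h2 V G1 (R k) H hc1 (hdis k) hne hl1 B (by omega)
      obtain ⟨_, q2, _, q4⟩ := h1 V (R k) G1 G2 hq2
      obtain ⟨_, _, q3, _⟩ := h1 V W G G1 hq
      have hkeep : ∀ j : Fin D, j ≠ k → ∀ r ∈ R j, ∀ y, (G2.Adj r y ↔ G1.Adj r y) := by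
        intro j hj r hr y
        exact q4 r (fun q hq h => hant k j (Ne.symm hj) q hq r hr h) y
      have hnb2 : ∀ j : Fin D, j.val < i → nb G2 H (a j) = nb G1 H (a j) := by
        intro j hj
        have hjk : j ≠ k := by
          intro h
          rw [h] at hj
          omega
        funext y
        unfold nb
        have h6 : (y ∈ H ∧ G2.Adj (a j) y) ↔ (y ∈ H ∧ G1.Adj (a j) y) :=
          and_congr_right fun _ => hkeep j hjk (a j) (ha j hj) y
        by_cases h7 : y ∈ H ∧ G1.Adj (a j) y
        · rw [if_pos h7, if_pos (h6.mpr h7)]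
        · rw [if_neg h7, if_neg (fun h8 => h7 (h6.mp h8))]
      have hmemB : ∀ j : Fin D, j.val < i → nb G1 H (a j) ∈ B := by
        intro j hj
        rw [hB, mem_image]
        exact ⟨j, by simpa using hj, rfl⟩
      refine ⟨G2, Function.update a k c, q3 G2 (q2 W (hRW k)), ?_, ?_, ?_, ?_⟩
      · intro j hj r hr y
        have hjk : j ≠ k := by
          intro h
          rw [h] at hj
          omega
        exact (hkeep j hjk r hr y).trans (hadj j (by omega) r hr y)
      · intro j l hjl x hx y hy hxy
        by_cases hjk : j = k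
        · have hlk : l ≠ k := fun h => hjl (hjk.trans h.symm)
          have h5 := (hkeep l hlk y hy x).mp hxy.symm
          exact hant l j (Ne.symm hjl) y hy x hx h5
        · exact hant j l hjl x hx y hy ((hkeep j hjk x hx y).mp hxy)
      · intro j hj
        by_cases hjk : j = k
        · rw [hjk, Function.update_self]
          exact hc
        · rw [Function.update_of_ne hjk]
          refine ha j ?_
          have : j.val ≠ k.val := fun h => hjk (Fin.ext h)
          omega
      · intro j l hj hl hjl
        have hlt : ∀ m : Fin D, m.val < i + 1 → m ≠ k → m.val < i := by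
          intro m hm hmk
          have : m.val ≠ k.val := fun h => hmk (Fin.ext h)
          omega
        by_cases hjk : j = k
        · have hlk : l ≠ k := fun h => hjl (hjk.trans h.symm)
          rw [hjk, Function.update_self, Function.update_of_ne hlk, hnb2 l (hlt l hl hlk)]
          intro h
          rw [h] at hnB
          exact hnB (hmemB l (hlt l hl hlk))
        · by_cases hlk : l = k
          · rw [hlk, Function.update_self, Function.update_of_ne hjk, hnb2 j (hlt j hj hjk)]
            intro h
            rw [← h] at hnB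
            exact hnB (hmemB j (hlt j hj hjk))
          · rw [Function.update_of_ne hjk, Function.update_of_ne hlk, hnb2 j (hlt j hj hjk),
              hnb2 l (hlt l hl hlk)]
            exact hd j l (hlt j hj hjk) (hlt l hl hlk) hjl
  obtain ⟨G', a, hq, _, hant, ha, hd⟩ := key D le_rfl
  refine ⟨G', a, (h1 V W G G' hq).1, fun i => ha i i.isLt,
    fun i j hij => hd i j i.isLt j.isLt hij, fun i j => ?_⟩
  by_cases hij : i = j
  · rw [hij]
    exact G'.loopless.irrefl _
  · exact hant i j hij (a i) (ha i i.isLt) (a j) (ha j j.isLt)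

end Pool.Agent.H17.HR
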