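import Pool.Agent.H53.HR.Targets

/-!
# Module HSB of hr_modules (MP_f2da09_co): subadditivity of the Hall ratio
-/

namespace Pool.Agent.H17.HR

open Finset Pool.Agent.H53.HR

theorem hsb : HSB := by
  intro V _ G A B a b
  refine ⟨?_, ?_, ?_⟩
  · intro hA hB U hU
    obtain ⟨I1, h1, i1, c1⟩ := hA (U ∩ A) inter_subset_right
    obtain ⟨I2, h2, i2, c2⟩ := hB (U ∩ B) inter_subset_right
    have hUc : #U ≤ #(U ∩ A) + #(U ∩ B) := by
      have h0 : U = (U ∩ A) ∪ (U ∩ B) := by
        rw [← inter_union_distrib_left]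
        exact (inter_eq_left.mpr hU).symm
      calc #U = #((U ∩ A) ∪ (U ∩ B)) := by rw [← h0]
        _ ≤ _ := card_union_le _ _
    rcases le_total #I1 #I2 with h | h
    · refine ⟨I2, h2.trans inter_subset_left, i2, ?_⟩
      calc #U ≤ a * #I1 + b * #I2 := by omega
        _ ≤ a * #I2 + b * #I2 := by gcongr
        _ = (a + b) * #I2 := by ring
    · refine ⟨I1, h1.trans inter_subset_left, i1, ?_⟩
      calc #U ≤ a * #I1 + b * #I2 := by omega
        _ ≤ a * #I1 + b * #I1 := by gcongr
        _ = (a + b) * #I1 := by ring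
  · intro hA hB hanti U hU
    obtain ⟨I1, h1, i1, c1⟩ := hA (U ∩ A) inter_subset_right
    have hsub : U \ A ⊆ B := by
      intro x hx
      rw [mem_sdiff] at hx
      have h2 := hU hx.1
      rw [mem_union] at h2
      exact h2.resolve_left hx.2
    obtain ⟨I2, h2, i2, c2⟩ := hB (U \ A) hsub
    refine ⟨I1 ∪ I2, ?_, ?_, ?_⟩
    · exact union_subset (h1.trans inter_subset_left) (h2.trans sdiff_subset)
    · intro x hx y hy
      rw [mem_union] at hx hy
      rcases hx with hx | hx <;> rcases hy with hy | hy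
      · exact i1 x hx y hy
      · exact hanti x (mem_inter.mp (h1 hx)).2 y (hsub (h2 hy))
      · exact fun h => hanti y (mem_inter.mp (h1 hy)).2 x (hsub (h2 hx)) h.symm
      · exact i2 x hx y hy
    · have hd : Disjoint I1 I2 := by
        rw [Finset.disjoint_left]
        intro x hx hx2
        exact (mem_sdiff.mp (h2 hx2)).2 (mem_inter.mp (h1 hx)).2
      rw [card_union_of_disjoint hd]
      have h3 := card_inter_add_card_sdiff U A
      calc #U = #(U ∩ A) + #(U \ A) := h3.symm
        _ ≤ a * #I1 + a * #I2 := by omega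
        _ = a * (#I1 + #I2) := by ring
  · intro hB hAB hba U hU
    obtain ⟨I, h1, i1, c1⟩ := hB U (hU.trans hAB)
    exact ⟨I, h1, i1, c1.trans (by gcongr)⟩

end Pool.Agent.H17.HR
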